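import Pool.Agent.Lib.MP_6bc78b_nt.MS.P4.Iface2
import Pool.Agent.Lib.MP_6bc78b_nt.MS.P4.H05.Fin
import Pool.Agent.Lib.MP_6bc78b_nt.MS.P4.H05.Ker
import Pool.Agent.Lib.MP_6bc78b_nt.MS.P4.H30.Zfac
import Pool.Agent.Lib.MP_6bc78b_nt.MS.P4.H50.Certk
import Pool.Agent.Lib.MP_6bc78b_nt.MS.P4.H57.Num34
import Pool.Agent.Lib.MP_6bc78b_nt.MS.P4.H70.CERT
import Pool.Agent.Lib.MP_6bc78b_nt.MS.P4.H70.NUM
import Pool.Agent.Lib.MP_6bc78b_nt.MS.P4.H70.QSA
import Pool.Agent.Lib.MP_6bc78b_nt.MS.P4.H70.QSL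
import Pool.Agent.Lib.MP_6bc78b_nt.MS.P4.H75.Av
import Pool.Agent.Lib.MP_6bc78b_nt.MS.P4.H75.Avg
import Pool.Agent.Lib.MP_6bc78b_nt.MS.P4.H84.Nas
import Pool.Agent.Lib.MP_6bc78b_nt.MS.P4.H93.Fin2

/-! Project MS, Part IV assembled: the final theorem from the Top statements. -/

set_option autoImplicit false

namespace Pool.Agent.Lib.MP_6bc78b_nt.MS.P4

theorem part4 (hZN : ZNStatement) (hZV : ZVStatement) (hZVB : ZVBStatement)
    (hZVV : ZVVStatement) (hZB : ZBStatement) (hZBB : ZBBStatement) (hPT : PTStatement)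
    (hNP : NPStatement) (hLV : LVStatement) (hLVB : LVBStatement) (hLVV : LVVStatement) :
    Final2Statement := by
  have hz := H30.zfac
  have hav := H75.av H05.ker hz
  have havg := H75.avg hav (H84.nas hZN hav hz)
  have hqsl := H70.qsl (H70.qsa hz) hZN hZV hZVB hZVV hZB hZBB hNP hLV hLVB hLVV
  have hfin := H05.fin (H70.cert hPT hz) hqsl H70.num havg hz
  exact H93.fin2 hfin (H50.certk hPT hz) hqsl H57.num3 H57.num4 havg hz

end Pool.Agent.Lib.MP_6bc78b_nt.MS.P4
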