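import Pool.Agent.Lib.MP_6bc78b_nt.MS.Top

/-! Project MS, Part IV: from the Top statements to the final theorem. -/

set_option autoImplicit false

open Complex Filter Topology ArithmeticFunction

namespace Pool.Agent.Lib.MP_6bc78b_nt.MS

/-- The real weight `exp (-(γ-T)^2/D^2)`. -/
noncomputable def wt (T γ : ℝ) : ℝ := Real.exp (-(γ - T) ^ 2 / DD T ^ 2)

/-- The quadratic form `∑ m W |1 - v/L - be Y|^2` with `Y = 1 - 1/(2 lam) + B`. -/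
noncomputable def QS (th lam c1 c2 be T : ℝ) : ℝ :=
  ∑ᶠ γ ∈ zset T, (mz γ : ℝ) * wt T γ *
    ‖1 - vv th c1 c2 T (1 / 2 + γ * I) / (Real.log T : ℂ)
      - (be : ℂ) * (((1 - 1 / (2 * lam) : ℝ) : ℂ) + BB lam T (1 / 2 + γ * I))‖ ^ 2

/-- Its limit. -/
noncomputable def QQ (th lam c1 c2 be : ℝ) : ℝ :=
  1 + m2 th c1 c2 + be ^ 2 * ((1 - 1 / (2 * lam)) ^ 2 - (1 - 1 / (2 * lam)) * lam / 3 + 1 / 12)
    - 2 * m1 th c1 c2 - 2 * be * (1 - 1 / (2 * lam) - lam / 6)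
    + 2 * be * ((1 - 1 / (2 * lam)) * m1 th c1 c2 + m3 th lam c1 c2)

/-- (ZFAC) facts on Hardy's function; `HardyOrder.lean` has `abs_hardyZ`, `zeroMult_le`, ... -/
def ZfacStatement : Prop :=
  (∀ γ : ℝ, hardyZ γ = 0 ↔ riemannZeta (1 / 2 + γ * I) = 0) ∧
  (∀ γ : ℝ, riemannZeta (1 / 2 + γ * I) = 0 → zeroMult γ = mz γ) ∧
  (∀ γ : ℝ, riemannZeta (1 / 2 + γ * I) = 0 → 1 ≤ mz γ) ∧
  (∀ γ : ℝ, hardyZ γ ≠ 0 → zeroMult γ = 0) ∧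
  (∀ γ : ℝ, 2 ≤ mz γ → deriv riemannZeta (1 / 2 + γ * I) = 0) ∧
  (∀ X : ℝ, {γ : ℝ | 0 < γ ∧ γ ≤ X ∧ riemannZeta (1 / 2 + γ * I) = 0}.Finite) ∧
  (∀ T : ℝ, (zset T).Finite)

/-- (QSA) the exact expansion of the quadratic form. -/
def QsaStatement : Prop := ∀ th lam c1 c2 be T : ℝ, 1 < T →
  QS th lam c1 c2 be T =
    (1 - be * (1 - 1 / (2 * lam))) ^ 2 * (ZS T (fun _ => 1)).re
    + (ZS T (fun s => vv th c1 c2 T s * (starRingEnd ℂ) (vv th c1 c2 T s))).re / Real.log T ^ 2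
    + be ^ 2 * (ZS T (fun s => BB lam T s * (starRingEnd ℂ) (BB lam T s))).re
    - 2 * (1 - be * (1 - 1 / (2 * lam))) * (ZS T (vv th c1 c2 T)).re / Real.log T
    - 2 * be * (1 - be * (1 - 1 / (2 * lam))) * (ZS T (BB lam T)).re
    + 2 * be * (ZS T (fun s => vv th c1 c2 T s * (starRingEnd ℂ) (BB lam T s))).re / Real.log T

/-- (QSL) its limit. -/
def QslStatement : Prop := ∀ th lam c1 c2 be : ℝ, 0 < th → th < 1 / 2 → th < lam → lam < 1 →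
  Tendsto (fun T : ℝ => QS th lam c1 c2 be T / (cG T * Real.log T)) atTop
    (𝓝 (QQ th lam c1 c2 be))

/-- (CERT) the certificate: at a zero of multiplicity `m ≥ 2` one has `v = 0` and
`Re Y ≤ 1 - m/2 + ε`, hence `|1 - v/L - be Y|^2 ≥ (1 - be ε)^2 (1 + be (m/2 - 1))^2`, and
`m (1 + be (m-2)) ≥ 2 (m-1)` for `be ≥ 1/2`. -/
def CertStatement : Prop := ∀ th lam c1 c2 be ε : ℝ, 0 < lam → lam < 1 → 1 / 2 ≤ be → be ≤ 1 →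
  0 < ε → ∀ᶠ T : ℝ in atTop,
    (1 - ε) * ∑ᶠ γ ∈ {γ | γ ∈ zset T ∧ 2 ≤ mz γ}, (mz γ : ℝ) * wt T γ ≤ QS th lam c1 c2 be T ∧
    2 * (1 - ε) * ∑ᶠ γ ∈ zset T, ((mz γ : ℝ) - 1) * wt T γ ≤ QS th lam c1 c2 be T

/-- (NUM) numbers, e.g. `c1 = 1.1036, c2 = -0.5314, be = 0.701`, `th`, `lam` very near `1/2`, `1`. -/
def NumStatement : Prop := ∃ th lam c1 c2 be : ℝ, 0 < th ∧ th < 1 / 2 ∧ th < lam ∧ lam < 1 ∧
  1 / 2 ≤ be ∧ be ≤ 1 ∧ QQ th lam c1 c2 be < 0.292949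

/-- The averaging kernel. -/
noncomputable def kw (γ T : ℝ) : ℝ := wt T γ / (Real.sqrt Real.pi * DD T)

/-- (KER) `∫ kw(γ,T) dT` is near `1` for large `γ`, with all the mass near `T = γ`. -/
def Ker4Statement : Prop := ∀ δ : ℝ, 0 < δ → δ < 1 / 2 → ∃ X1 : ℝ, 2 ≤ X1 ∧ ∀ γ : ℝ, X1 ≤ γ →
  1 - δ ≤ ∫ T in (γ / (1 + δ))..((1 + δ) * γ), kw γ T ∧
  ∫ T in (γ / 2)..(2 * γ), kw γ T ≤ 1 + δ ∧
  ∫ T in (γ / 2)..(γ / (1 + δ)), kw γ T ≤ δ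

/-- Counting function with a general multiplicity function. -/
noncomputable def Nb (b : ℝ → ℝ) (X : ℝ) : ℝ :=
  ∑ᶠ γ ∈ {γ : ℝ | 0 < γ ∧ γ ≤ X ∧ riemannZeta (1 / 2 + γ * I) = 0}, b γ

/-- (AV) integrated inequality: for `0 ≤ b ≤ mz`, and any weight inequality
`∑ b wt ≤ ∑ a wt` valid for `T ≥ X0`, one gets, for every `X ≥ X0`,
`(1-δ) ∑_{X1 ≤ γ ≤ X/(1+δ)} b ≤ ∫_{X0}^X (∑_{γ ∈ zset T} b wt) dT/(√π D)` and
`∫_{X0}^X (∑_{γ ∈ zset T} b wt) dT/(√π D) ≤ (1+δ) Nb b ((1+δ) X) + δ Nb b (2X) + C`. -/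
def AvStatement : Prop := ∀ b : ℝ → ℝ, (∀ γ, 0 ≤ b γ) →
  ∀ δ : ℝ, 0 < δ → δ < 1 / 2 → ∀ X0 : ℝ, 3 ≤ X0 → ∃ C : ℝ, ∀ X : ℝ, X0 ≤ X →
    (1 - δ) * Nb b (X / (1 + δ)) - C ≤
      ∫ T in X0..X, (∑ᶠ γ ∈ zset T, b γ * wt T γ) / (Real.sqrt Real.pi * DD T) ∧
    ∫ T in X0..X, (∑ᶠ γ ∈ zset T, b γ * wt T γ) / (Real.sqrt Real.pi * DD T) ≤
      (1 + δ) * Nb b ((1 + δ) * X) + δ * Nb b (2 * X) + C ∧
    IntervalIntegrable (fun T => (∑ᶠ γ ∈ zset T, b γ * wt T γ) / (Real.sqrt Real.pi * DD T))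
      MeasureTheory.volume X0 X

/-- (NAS) `N(X) ~ X log X / (2 pi)`. -/
def NasStatement : Prop :=
  Tendsto (fun X : ℝ => Nb (fun γ => (mz γ : ℝ)) X / (X * Real.log X / (2 * Real.pi))) atTop (𝓝 1)

/-- (AVG) weighted inequalities give inequalities between counting functions. -/
def AvgStatement : Prop := ∀ b : ℝ → ℝ, (∀ γ, 0 ≤ b γ) →
  ∀ q q' : ℝ, 0 ≤ q → q < q' →
  (∀ᶠ T : ℝ in atTop, ∑ᶠ γ ∈ zset T, b γ * wt T γ ≤ q * (cG T * Real.log T)) →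
  ∀ᶠ X : ℝ in atTop, Nb b X ≤ q' * Nb (fun γ => (mz γ : ℝ)) X

end Pool.Agent.Lib.MP_6bc78b_nt.MS
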