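import Pool.Agent.Lib.MP_6bc78b_nt.MS.P4.Iface

/-! Project MS, Part IV, second file: zeros of multiplicity at least `k`. -/

set_option autoImplicit false

open Complex Filter Topology ArithmeticFunction

namespace Pool.Agent.Lib.MP_6bc78b_nt.MS

/-- (CERTK) at a zero of multiplicity `m ≥ k ≥ 2`: `v = 0`, `Re Y ≤ 1 - k/2 + ε`. -/
def CertkStatement : Prop := ∀ (k : ℕ) (th lam c1 c2 be ε : ℝ), 2 ≤ k → 0 < lam → lam < 1 →
  0 ≤ be → 0 < ε → ε < 1 → ∀ᶠ T : ℝ in atTop,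
    (1 - ε) * (1 + be * ((k : ℝ) / 2 - 1)) ^ 2 *
      ∑ᶠ γ ∈ {γ | γ ∈ zset T ∧ k ≤ mz γ}, (mz γ : ℝ) * wt T γ ≤ QS th lam c1 c2 be T

/-- (NUM3) `c1 = -4.1, c2 = -2.5, be = 16.6`, `th = 0.4999`, `lam = 0.9999`. -/
def Num3Statement : Prop := ∃ th lam c1 c2 be : ℝ, 0 < th ∧ th < 1 / 2 ∧ th < lam ∧ lam < 1 ∧
  0 ≤ be ∧ QQ th lam c1 c2 be < 0.02339 * (1 + be * ((3 : ℝ) / 2 - 1)) ^ 2

/-- (NUM4) `c1 = -7.2, c2 = -3.6, be = 26`, `th = 0.49999`, `lam = 0.99999`. -/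
def Num4Statement : Prop := ∃ th lam c1 c2 be : ℝ, 0 < th ∧ th < 1 / 2 ∧ th < lam ∧ lam < 1 ∧
  0 ≤ be ∧ QQ th lam c1 c2 be < 0.006398 * (1 + be * ((4 : ℝ) / 2 - 1)) ^ 2

/-- Number of zeros of `Z` in `(0,T]` of multiplicity at least `k`, counted with multiplicity. -/
noncomputable def NZm (k : ℕ) (T : ℝ) : ℝ :=
  ∑ᶠ γ ∈ {γ : ℝ | 0 < γ ∧ γ ≤ T ∧ hardyZ γ = 0 ∧ k ≤ zeroMult γ}, (zeroMult γ : ℝ)

/-- The final theorem, full form: at least 70.7 % of the zeros are simple, the number of distinct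
zeros is at least 85.35 % of the number of zeros, at most 2.34 % of the zeros have multiplicity at
least 3 and at most 0.64 % have multiplicity at least 4. -/
def Final2Statement : Prop := ∃ T0 : ℝ, ∀ T : ℝ, T0 ≤ T →
  0.70705 * NZ T ≤ NZs T ∧ 0.8535 * NZ T ≤ NZd T ∧
    NZm 3 T ≤ 0.0234 * NZ T ∧ NZm 4 T ≤ 0.0064 * NZ T

end Pool.Agent.Lib.MP_6bc78b_nt.MS
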